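import Mathlib
import Pool.Agent.H318R3.St.Line

/-!
MP_c699aa_gt. If a subsequence of the iterated Steiner symmetrals of a compact set converges to the
ball of the same volume in the Hausdorff distance, then so does the whole sequence.

Proof: an inclusion in a ball centred at the origin persists, the volume of `B \ E_i` does not
increase along the sequence, and it tends to `0` along the subsequence since the volumes of `E_i`
and `B` agree.
-/

set_option autoImplicit false
set_option linter.unusedSectionVars false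

open MeasureTheory Set Filter Topology Metric
open scoped RealInnerProductSpace ENNReal

namespace Pool.Agent.Results.MP_c699aa_gt.FullConvergence

/-- The Steiner symmetral of `K` in the direction of the unit vector `u`: the set of all `x + t u`
such that `x` lies in the orthogonal projection of `K` to the hyperplane orthogonal to `u` and
`|t|` is at most half of the one-dimensional Lebesgue measure of `{s | x + s u ∈ K}`. -/
def steiner {n : ℕ} (u : EuclideanSpace ℝ (Fin n)) (K : Set (EuclideanSpace ℝ (Fin n))) :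
    Set (EuclideanSpace ℝ (Fin n)) :=
  {y | ∃ (x : EuclideanSpace ℝ (Fin n)) (t : ℝ), y = x + t • u ∧ inner ℝ x u = 0 ∧
    (∃ s : ℝ, x + s • u ∈ K) ∧ |t| ≤ (volume {s : ℝ | x + s • u ∈ K}).toReal / 2}

/-- The iterated Steiner symmetrals: `E_0 = A` and `E_(i+1)` is the Steiner symmetral of `E_i` in
the direction `u i`. -/
def iter {n : ℕ} (u : ℕ → EuclideanSpace ℝ (Fin n)) (A : Set (EuclideanSpace ℝ (Fin n))) :
    ℕ → Set (EuclideanSpace ℝ (Fin n))
  | 0 => A
  | i + 1 => steiner (u i) (iter u A i)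

section general

variable {E : Type*} [NormedAddCommGroup E] [InnerProductSpace ℝ E] [FiniteDimensional ℝ E]
  [MeasurableSpace E] [BorelSpace E]

open Pool.Agent.H318R3.St

lemma foot_continuous (u : E) : Continuous (foot u) := by
  unfold foot
  fun_prop

lemma exists_iff_foot {u : E} (hu : ‖u‖ = 1) {x : E} (hx : ⟪x, u⟫ = 0) (K : Set E) :
    (∃ s : ℝ, x + s • u ∈ K) ↔ x ∈ foot u '' K := by
  constructor
  · rintro ⟨s, hs⟩
    refine ⟨_, hs, ?_⟩
    unfold foot
    rw [inner_add_left, inner_smul_left, inner_self_one hu, hx]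
    simp
  · rintro ⟨y, hy, rfl⟩
    refine ⟨⟪y, u⟫, ?_⟩
    rwa [foot_add]

lemma chord_bdd {u : E} (hu : ‖u‖ = 1) {K : Set E} {R : ℝ} (hR : K ⊆ closedBall 0 R) (x : E) :
    chord u x K ⊆ Icc (-(R + ‖x‖)) (R + ‖x‖) := by
  intro s hs
  have h1 : ‖x + s • u‖ ≤ R := by
    have := hR hs
    rwa [mem_closedBall_zero_iff] at this
  have h2 : |s| = ‖(x + s • u) - x‖ := by
    rw [add_sub_cancel_left, norm_smul, hu, mul_one, Real.norm_eq_abs]
  have h3 : |s| ≤ R + ‖x‖ := by
    rw [h2]
    refine (norm_sub_le _ _).trans (by linarith)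
  exact abs_le.1 h3

lemma chord_fin {u : E} (hu : ‖u‖ = 1) {K : Set E} (hK : IsCompact K) (x : E) :
    volume (chord u x K) ≠ ⊤ := by
  obtain ⟨R, hR⟩ := hK.isBounded.subset_closedBall 0
  exact ne_top_of_le_ne_top (by simp) (measure_mono (chord_bdd hu hR x))

/-- Upper semicontinuity of the length of chords. -/
lemma chord_usc {u : E} (hu : ‖u‖ = 1) {K : Set E} (hK : IsCompact K) (x₀ : E) {c : ℝ≥0∞}
    (hc : volume (chord u x₀ K) < c) : ∀ᶠ x in 𝓝 x₀, volume (chord u x K) < c := by
  obtain ⟨U, hU1, hU2, hU3⟩ := Set.exists_isOpen_lt_of_lt (μ := volume) (chord u x₀ K) c hc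
  obtain ⟨R, hR⟩ := hK.isBounded.subset_closedBall 0
  -- the bad set
  let M := R + (‖x₀‖ + 1)
  let Z : Set (E × ℝ) := {p | p.1 + p.2 • u ∈ K ∧ p.2 ∉ U} ∩ (closedBall x₀ 1 ×ˢ Icc (-M) M)
  have hZ : IsCompact Z := by
    apply IsCompact.inter_left
    · exact (isCompact_closedBall _ _).prod isCompact_Icc
    · apply IsClosed.inter
      · exact hK.isClosed.preimage (by fun_prop)
      · exact hU2.isClosed_compl.preimage continuous_snd
  have hP : IsClosed (Prod.fst '' Z) := (hZ.image continuous_fst).isClosed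
  have hx₀ : x₀ ∉ Prod.fst '' Z := by
    rintro ⟨⟨a, s⟩, ⟨⟨h1, h2⟩, -⟩, rfl⟩
    exact h2 (hU1 h1)
  have h4 : ∀ᶠ x in 𝓝 x₀, x ∉ Prod.fst '' Z := hP.isOpen_compl.mem_nhds hx₀
  have h5 : ∀ᶠ x in 𝓝 x₀, x ∈ closedBall x₀ 1 := closedBall_mem_nhds _ one_pos
  filter_upwards [h4, h5] with x hx hx1
  refine lt_of_le_of_lt (measure_mono ?_) hU3
  intro s hs
  by_contra hsU
  apply hx
  refine ⟨(x, s), ⟨⟨hs, hsU⟩, hx1, ?_⟩, rfl⟩
  have hb := chord_bdd hu hR x hs
  have h6 : ‖x‖ ≤ ‖x₀‖ + 1 := by
    have : ‖x‖ = ‖x₀ + (x - x₀)‖ := by congr 1; abel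
    rw [this]
    refine (norm_add_le _ _).trans ?_
    rw [mem_closedBall, dist_eq_norm] at hx1
    linarith
  simp only [mem_Icc, M] at hb ⊢
  constructor <;> linarith [hb.1, hb.2]

lemma sym_eq {u : E} (hu : ‖u‖ = 1) (K : Set E) : sym u K =
    {y | foot u y ∈ foot u '' K ∧ 2 * |⟪y, u⟫| ≤ (volume (chord u (foot u y) K)).toReal} := by
  ext y
  constructor
  · rintro ⟨x, t, rfl, hx, h1, h2⟩
    have hf : foot u (x + t • u) = x := by
      unfold foot
      rw [inner_add_left, inner_smul_left, inner_self_one hu, hx]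
      simp
    have ht : ⟪x + t • u, u⟫ = t := by
      rw [inner_add_left, inner_smul_left, inner_self_one hu, hx]
      simp
    refine ⟨?_, ?_⟩
    · rw [hf]; exact (exists_iff_foot hu hx K).1 h1
    · rw [hf, ht]; exact h2
  · rintro ⟨h1, h2⟩
    exact ⟨foot u y, ⟪y, u⟫, (foot_add u y).symm, foot_inner hu y,
      (exists_iff_foot hu (foot_inner hu y) K).2 h1, h2⟩

lemma norm_line {u : E} (hu : ‖u‖ = 1) {x : E} (hx : ⟪x, u⟫ = 0) (s : ℝ) :
    ‖x + s • u‖ ^ 2 = ‖x‖ ^ 2 + s ^ 2 := by
  rw [norm_add_sq_real, inner_smul_right, hx, norm_smul, hu, mul_one, Real.norm_eq_abs, sq_abs]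
  ring

/-- The chords of a ball. -/
lemma chord_ball {u : E} (hu : ‖u‖ = 1) {x : E} (hx : ⟪x, u⟫ = 0) {r : ℝ} (hr : 0 ≤ r)
    (hxr : ‖x‖ ≤ r) : chord u x (closedBall 0 r) =
      Icc (-Real.sqrt (r ^ 2 - ‖x‖ ^ 2)) (Real.sqrt (r ^ 2 - ‖x‖ ^ 2)) := by
  have h0 : 0 ≤ r ^ 2 - ‖x‖ ^ 2 := by nlinarith [norm_nonneg x]
  ext s
  rw [mem_Icc, ← abs_le]
  show x + s • u ∈ closedBall 0 r ↔ _
  rw [mem_closedBall_zero_iff]
  constructor
  · intro h
    apply Real.le_sqrt_of_sq_le
    rw [sq_abs]
    have h1 := norm_line hu hx s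
    have h2 : ‖x + s • u‖ ^ 2 ≤ r ^ 2 := by
      have := norm_nonneg (x + s • u)
      nlinarith
    linarith
  · intro h
    have h1 := norm_line hu hx s
    have h3 : s ^ 2 ≤ r ^ 2 - ‖x‖ ^ 2 := by
      have := Real.sq_sqrt h0
      rw [← sq_abs]
      have h4 := abs_nonneg s
      nlinarith [Real.sqrt_nonneg (r ^ 2 - ‖x‖ ^ 2)]
    have h2 : ‖x + s • u‖ ^ 2 ≤ r ^ 2 := by linarith
    exact abs_le_of_sq_le_sq' h2 hr |>.2

/-- Balls are preserved. -/
lemma sym_subset_ball' {u : E} (hu : ‖u‖ = 1) {K : Set E} {r : ℝ} (hr : 0 ≤ r)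
    (hK : K ⊆ closedBall 0 r) : sym u K ⊆ closedBall 0 r := by
  rintro y ⟨x, t, rfl, hx, ⟨s, hs⟩, h2⟩
  have hsr := hK hs
  rw [mem_closedBall_zero_iff] at hsr
  have hxr : ‖x‖ ≤ r := by
    have h1 := norm_line hu hx s
    have h3 : ‖x + s • u‖ ^ 2 ≤ r ^ 2 := by
      have := norm_nonneg (x + s • u)
      nlinarith
    have h4 : ‖x‖ ^ 2 ≤ r ^ 2 := by nlinarith [sq_nonneg s]
    exact abs_le_of_sq_le_sq' h4 hr |>.2
  have h0 : 0 ≤ r ^ 2 - ‖x‖ ^ 2 := by nlinarith [norm_nonneg x]
  have h5 : (volume (chord u x K)).toReal ≤ 2 * Real.sqrt (r ^ 2 - ‖x‖ ^ 2) := by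
    have h6 : chord u x K ⊆ chord u x (closedBall 0 r) := fun s hs => hK hs
    have h7 := measure_mono (μ := volume) h6
    rw [chord_ball hu hx hr hxr, Real.volume_Icc] at h7
    have h8 := ENNReal.toReal_mono ENNReal.ofReal_ne_top h7
    rw [ENNReal.toReal_ofReal (by have := Real.sqrt_nonneg (r ^ 2 - ‖x‖ ^ 2); linarith)] at h8
    linarith
  have h9 : x + t • u ∈ closedBall 0 r ↔ t ∈ chord u x (closedBall 0 r) := Iff.rfl
  rw [h9, chord_ball hu hx hr hxr, mem_Icc, ← abs_le]
  linarith

lemma sym_compact {u : E} (hu : ‖u‖ = 1) {K : Set E} (hK : IsCompact K) :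
    IsCompact (sym u K) := by
  obtain ⟨R, hR⟩ := hK.isBounded.subset_closedBall 0
  have hR' : K ⊆ closedBall 0 |R| := hR.trans (closedBall_subset_closedBall (le_abs_self R))
  apply isCompact_of_isClosed_isBounded
  · rw [sym_eq hu]
    have hset : {y | foot u y ∈ foot u '' K ∧
        2 * |⟪y, u⟫| ≤ (volume (chord u (foot u y) K)).toReal} =
        foot u ⁻¹' (foot u '' K) ∩
          {y | 2 * |⟪y, u⟫| ≤ (volume (chord u (foot u y) K)).toReal} := rfl
    rw [hset]
    refine IsClosed.inter ?_ ?_
    · exact (hK.image (foot_continuous u)).isClosed.preimage (foot_continuous u)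
    · rw [← isOpen_compl_iff, isOpen_iff_mem_nhds]
      intro y hy
      simp only [mem_compl_iff, mem_ofPred_eq, not_le] at hy
      obtain ⟨c, hc1, hc2⟩ := exists_between hy
      have hc0 : 0 ≤ c := ENNReal.toReal_nonneg.trans hc1.le
      have h1 : volume (chord u (foot u y) K) < ENNReal.ofReal c := by
        rw [← ENNReal.ofReal_toReal (chord_fin hu hK (foot u y))]
        exact (ENNReal.ofReal_lt_ofReal_iff (lt_of_le_of_lt ENNReal.toReal_nonneg hc1)).2 hc1
      have h2 := (foot_continuous u).continuousAt (x := y) |>.eventually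
        (chord_usc hu hK (foot u y) h1)
      have h3 : ∀ᶠ z in 𝓝 y, c < 2 * |⟪z, u⟫| := by
        have hcont : ContinuousAt (fun z : E => 2 * |⟪z, u⟫|) y := by fun_prop
        exact continuousAt_const.eventually_lt hcont hc2
      filter_upwards [h2, h3] with z hz1 hz2
      simp only [mem_compl_iff, mem_ofPred_eq, not_le]
      refine lt_trans ?_ hz2
      have := (ENNReal.toReal_lt_toReal (chord_fin hu hK (foot u z)) ENNReal.ofReal_ne_top).2 hz1
      rwa [ENNReal.toReal_ofReal hc0] at this
  · exact isBounded_closedBall.subset (sym_subset_ball' hu (abs_nonneg R) hR')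

/-- The volume of a chord is preserved. -/
lemma chord_sym {u : E} (hu : ‖u‖ = 1) {x : E} (hx : ⟪x, u⟫ = 0) {K : Set E}
    (hne : (chord u x K).Nonempty) :
    chord u x (sym u K) = Icc (-((volume (chord u x K)).toReal / 2))
      ((volume (chord u x K)).toReal / 2) := by
  ext t
  rw [mem_Icc, ← abs_le]
  show x + t • u ∈ sym u K ↔ _
  rw [mem_sym_line hu hx]
  constructor
  · rintro ⟨-, h⟩; linarith
  · intro h; exact ⟨hne, by linarith⟩

lemma sym_vol {u : E} (hu : ‖u‖ = 1) {K : Set E} (hK : IsCompact K) :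
    volume (sym u K) = volume K := by
  have h1 := setLIntegral_line hu (fun _ => (1 : ℝ≥0∞)) measurable_const
    (sym_compact hu hK).measurableSet
  have h2 := setLIntegral_line hu (fun _ => (1 : ℝ≥0∞)) measurable_const hK.measurableSet
  rw [setLIntegral_one] at h1 h2
  rw [h1, h2]
  congr 1
  ext x
  rw [setLIntegral_one, setLIntegral_one]
  rcases (chord u (foot u x) K).eq_empty_or_nonempty with h | h
  · rw [chord_sym_empty hu (foot_inner hu x) h, h]
  · rw [chord_sym hu (foot_inner hu x) h, Real.volume_Icc]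
    rw [show (volume (chord u (foot u x) K)).toReal / 2 -
      -((volume (chord u (foot u x) K)).toReal / 2) = (volume (chord u (foot u x) K)).toReal by ring]
    exact ENNReal.ofReal_toReal (chord_fin hu hK _)

/-- Symmetrization does not increase the volume of the part of the ball that is not covered. -/
lemma sym_diff {u : E} (hu : ‖u‖ = 1) {K : Set E} (hK : IsCompact K) {r : ℝ} (hr : 0 ≤ r) :
    volume (closedBall 0 r \ sym u K) ≤ volume (closedBall 0 r \ K) := by
  have h1 := setLIntegral_line hu (fun _ => (1 : ℝ≥0∞)) measurable_const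
    (measurableSet_closedBall.diff (sym_compact hu hK).measurableSet : MeasurableSet
      (closedBall 0 r \ sym u K))
  have h2 := setLIntegral_line hu (fun _ => (1 : ℝ≥0∞)) measurable_const
    (measurableSet_closedBall.diff hK.measurableSet : MeasurableSet (closedBall 0 r \ K))
  rw [setLIntegral_one] at h1 h2
  rw [h1, h2]
  apply lintegral_mono
  intro x
  show ∫⁻ _ in chord u (foot u x) (closedBall 0 r \ sym u K), (1 : ℝ≥0∞) ≤
    ∫⁻ _ in chord u (foot u x) (closedBall 0 r \ K), (1 : ℝ≥0∞)
  rw [setLIntegral_one, setLIntegral_one]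
  have hx := foot_inner hu x
  set z := foot u x with hz
  have e1 : chord u z (closedBall 0 r \ sym u K) =
    chord u z (closedBall 0 r) \ chord u z (sym u K) := rfl
  have e2 : chord u z (closedBall 0 r \ K) = chord u z (closedBall 0 r) \ chord u z K := rfl
  rw [e1, e2]
  rcases (chord u z K).eq_empty_or_nonempty with h | h
  · rw [chord_sym_empty hu hx h, h]
  · rcases le_or_gt ‖z‖ r with hzr | hzr
    · rw [chord_ball hu hx hr hzr, chord_sym hu hx h]
      set b := Real.sqrt (r ^ 2 - ‖z‖ ^ 2) with hb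
      set l := (volume (chord u z K)).toReal with hl
      have hb0 : 0 ≤ b := Real.sqrt_nonneg _
      have hl0 : 0 ≤ l := ENNReal.toReal_nonneg
      have h3 : ENNReal.ofReal (b - -b) ≤ volume (Icc (-b) b \ chord u z K) +
          volume (chord u z K) := by
        rw [← Real.volume_Icc]
        refine (measure_mono (fun s hs => ?_)).trans (measure_union_le _ _)
        by_cases hsK : s ∈ chord u z K
        · exact Or.inr hsK
        · exact Or.inl ⟨hs, hsK⟩
      rcases le_or_gt b (l / 2) with hbl | hbl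
      · have : Icc (-b) b \ Icc (-(l / 2)) (l / 2) = ∅ := by
          rw [sdiff_eq_empty]
          exact Icc_subset_Icc (by linarith) hbl
        rw [this, measure_empty]
        exact bot_le
      · have h4 : volume (Icc (-b) b \ Icc (-(l / 2)) (l / 2)) = ENNReal.ofReal (2 * b - l) := by
          rw [measure_sdiff (Icc_subset_Icc (by linarith) hbl.le) measurableSet_Icc.nullMeasurableSet
            (by simp), Real.volume_Icc, Real.volume_Icc, ← ENNReal.ofReal_sub _ (by linarith)]
          congr 1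
          ring
        rw [h4]
        have h5 : volume (chord u z K) = ENNReal.ofReal l :=
          (ENNReal.ofReal_toReal (chord_fin hu hK _)).symm
        rw [h5] at h3
        rw [ENNReal.ofReal_sub _ hl0, show 2 * b = b - -b by ring]
        exact tsub_le_iff_right.2 h3
    · have : chord u z (closedBall 0 r) = ∅ := by
        ext s
        simp only [mem_empty_iff_false, iff_false]
        intro hs
        have h6 : ‖z + s • u‖ ≤ r := by
          have : z + s • u ∈ closedBall 0 r := hs
          rwa [mem_closedBall_zero_iff] at this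
        have h7 := norm_line hu hx s
        have := norm_nonneg (z + s • u)
        nlinarith [sq_nonneg s]
      rw [this]
      simp

end general

variable {n : ℕ}

open Pool.Agent.H318R3.St in
lemma steiner_eq (u : EuclideanSpace ℝ (Fin n)) (K : Set (EuclideanSpace ℝ (Fin n))) :
    steiner u K = sym u K := by
  ext y
  constructor
  · rintro ⟨x, t, h1, h2, h3, h4⟩
    exact ⟨x, t, h1, h2, h3, by unfold chord; linarith⟩
  · rintro ⟨x, t, h1, h2, h3, h4⟩
    exact ⟨x, t, h1, h2, h3, by unfold chord at h4; linarith⟩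

lemma iter_compact {u : ℕ → EuclideanSpace ℝ (Fin n)} (hu : ∀ i, ‖u i‖ = 1)
    {A : Set (EuclideanSpace ℝ (Fin n))} (hA : IsCompact A) (i : ℕ) : IsCompact (iter u A i) := by
  induction i with
  | zero => exact hA
  | succ i ih =>
    show IsCompact (steiner (u i) (iter u A i))
    rw [steiner_eq]
    exact sym_compact (hu i) ih

lemma iter_vol {u : ℕ → EuclideanSpace ℝ (Fin n)} (hu : ∀ i, ‖u i‖ = 1)
    {A : Set (EuclideanSpace ℝ (Fin n))} (hA : IsCompact A) (i : ℕ) :
    volume (iter u A i) = volume A := by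
  induction i with
  | zero => rfl
  | succ i ih =>
    show volume (steiner (u i) (iter u A i)) = _
    rw [steiner_eq, sym_vol (hu i) (iter_compact hu hA i), ih]

lemma iter_ball {u : ℕ → EuclideanSpace ℝ (Fin n)} (hu : ∀ i, ‖u i‖ = 1)
    {A : Set (EuclideanSpace ℝ (Fin n))} {r : ℝ} (hr : 0 ≤ r) {i : ℕ}
    (h : iter u A i ⊆ closedBall 0 r) (k : ℕ) : iter u A (i + k) ⊆ closedBall 0 r := by
  induction k with
  | zero => exact h
  | succ k ih =>
    show steiner (u (i + k)) (iter u A (i + k)) ⊆ _
    rw [steiner_eq]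
    exact sym_subset_ball' (hu _) hr ih

lemma iter_diff {u : ℕ → EuclideanSpace ℝ (Fin n)} (hu : ∀ i, ‖u i‖ = 1)
    {A : Set (EuclideanSpace ℝ (Fin n))} (hA : IsCompact A) {r : ℝ} (hr : 0 ≤ r) (i k : ℕ) :
    volume (closedBall 0 r \ iter u A (i + k)) ≤ volume (closedBall 0 r \ iter u A i) := by
  induction k with
  | zero => exact le_rfl
  | succ k ih =>
    refine le_trans ?_ ih
    show volume (closedBall 0 r \ steiner (u (i + k)) (iter u A (i + k))) ≤ _
    rw [steiner_eq]
    exact sym_diff (hu _) (iter_compact hu hA _) hr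

/-- **Full convergence of iterated Steiner symmetrizations.** Let `A` be a compact subset of `ℝ^n`,
`n ≥ 2`, with nonempty interior, let `u 0, u 1, …` be arbitrary unit vectors, let `E_i` be the
iterated Steiner symmetrals and let `B` be the closed ball centred at the origin with the volume of
`A`. If some subsequence of `E_i` converges to `B` in the Hausdorff distance, then the whole
sequence converges to `B`. (Finite perimeter of `A` is not needed.) -/
theorem result (n : ℕ) (_hn : 2 ≤ n) (A : Set (EuclideanSpace ℝ (Fin n))) (hA : IsCompact A)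
    (hAi : (interior A).Nonempty) (u : ℕ → EuclideanSpace ℝ (Fin n)) (hu : ∀ i, ‖u i‖ = 1)
    (r : ℝ) (hr : 0 ≤ r) (hvol : volume (closedBall (0 : EuclideanSpace ℝ (Fin n)) r) = volume A)
    (φ : ℕ → ℕ) (_hφ : StrictMono φ)
    (hsub : Tendsto (fun j => hausdorffDist (iter u A (φ j)) (closedBall 0 r)) atTop (𝓝 0)) :
    Tendsto (fun i => hausdorffDist (iter u A i) (closedBall 0 r)) atTop (𝓝 0) := by
  have hApos : 0 < volume A := by
    refine lt_of_lt_of_le ?_ (measure_mono interior_subset)
    exact isOpen_interior.measure_pos _ hAi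
  have hrpos : 0 < r := by
    rcases lt_or_eq_of_le hr with h | h
    · exact h
    · exfalso
      rw [← hvol, ← h] at hApos
      have : Nonempty (Fin n) := ⟨⟨0, by omega⟩⟩
      simp at hApos
  have hcomp := iter_compact hu hA
  have hne : ∀ i, (iter u A i).Nonempty := by
    intro i
    apply nonempty_of_measure_ne_zero (μ := volume)
    rw [iter_vol hu hA]
    exact hApos.ne'
  have hBne : (closedBall (0 : EuclideanSpace ℝ (Fin n)) r).Nonempty := ⟨0, by simpa using hr⟩
  have hfin : ∀ i, hausdorffEDist (iter u A i) (closedBall 0 r) ≠ ⊤ := fun i =>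
    hausdorffEDist_ne_top_of_nonempty_of_bounded (hne i) hBne (hcomp i).isBounded
      isBounded_closedBall
  -- outer inclusion
  have houter : ∀ ε : ℝ, 0 < ε → ∃ N, ∀ i, N ≤ i → iter u A i ⊆ closedBall 0 (r + ε) := by
    intro ε hε
    obtain ⟨j, hj⟩ := (hsub.eventually (gt_mem_nhds hε)).exists
    refine ⟨φ j, fun i hi => ?_⟩
    have h1 : iter u A (φ j) ⊆ closedBall 0 (r + ε) := by
      intro x hx
      obtain ⟨y, hy, hxy⟩ := exists_dist_lt_of_hausdorffDist_lt hx hj (hfin _)
      rw [mem_closedBall_zero_iff] at hy ⊢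
      have : ‖x‖ ≤ ‖y‖ + dist x y := by
        rw [dist_eq_norm]
        calc ‖x‖ = ‖y + (x - y)‖ := by congr 1; abel
          _ ≤ _ := norm_add_le _ _
      linarith
    obtain ⟨k, rfl⟩ := Nat.exists_eq_add_of_le hi
    exact iter_ball hu (by linarith) h1 k
  -- volume of the uncovered part
  have hcont : Tendsto (fun ε : ℝ => volume (closedBall (0 : EuclideanSpace ℝ (Fin n)) (r + ε)))
      (𝓝[>] 0) (𝓝 (volume (closedBall (0 : EuclideanSpace ℝ (Fin n)) r))) := by
    have hform : ∀ s : ℝ, 0 ≤ s → volume (closedBall (0 : EuclideanSpace ℝ (Fin n)) s) =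
        ENNReal.ofReal (s ^ n) * volume (ball (0 : EuclideanSpace ℝ (Fin n)) 1) := by
      intro s hs
      rw [Measure.addHaar_closedBall _ _ hs, finrank_euclideanSpace, Fintype.card_fin]
    have h1 : Tendsto (fun ε : ℝ => ENNReal.ofReal ((r + ε) ^ n) *
        volume (ball (0 : EuclideanSpace ℝ (Fin n)) 1)) (𝓝[>] 0)
        (𝓝 (ENNReal.ofReal (r ^ n) * volume (ball (0 : EuclideanSpace ℝ (Fin n)) 1))) := by
      apply ENNReal.Tendsto.mul_const _ (Or.inr measure_ball_lt_top.ne)
      apply (ENNReal.continuous_ofReal.tendsto _).comp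
      have : Continuous (fun ε : ℝ => (r + ε) ^ n) := by fun_prop
      have h2 := (this.tendsto 0).mono_left (nhdsWithin_le_nhds (s := Ioi (0 : ℝ)))
      simpa using h2
    rw [hform r hr]
    refine h1.congr' ?_
    filter_upwards [self_mem_nhdsWithin] with ε hε
    exact (hform _ (by have : (0 : ℝ) < ε := hε; linarith)).symm
  have hdiff : ∀ c : ℝ≥0∞, 0 < c → ∃ N, ∀ i, N ≤ i →
      volume (closedBall 0 r \ iter u A i) < c := by
    intro c hc
    have hBfin : volume (closedBall (0 : EuclideanSpace ℝ (Fin n)) r) ≠ ⊤ :=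
      measure_closedBall_lt_top.ne
    have h1 : volume (closedBall (0 : EuclideanSpace ℝ (Fin n)) r) <
        volume (closedBall (0 : EuclideanSpace ℝ (Fin n)) r) + c :=
      ENNReal.lt_add_right hBfin hc.ne'
    have h2 := hcont.eventually (gt_mem_nhds h1)
    obtain ⟨ε, h3, hε⟩ := (h2.and self_mem_nhdsWithin).exists
    have hε0 : (0 : ℝ) < ε := hε
    obtain ⟨N, hN⟩ := houter ε hε0
    refine ⟨N, fun i hi => ?_⟩
    have h4 : volume (closedBall 0 r \ iter u A i) + volume (iter u A i) ≤
        volume (closedBall (0 : EuclideanSpace ℝ (Fin n)) (r + ε)) := by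
      rw [← measure_union disjoint_sdiff_left (hcomp i).measurableSet]
      apply measure_mono
      apply union_subset
      · exact sdiff_subset.trans (closedBall_subset_closedBall (by linarith))
      · exact hN i hi
    rw [iter_vol hu hA, ← hvol] at h4
    have h5 := lt_of_le_of_lt h4 h3
    rw [add_comm] at h5
    exact lt_of_add_lt_add_left h5
  -- conclusion
  rw [Metric.tendsto_atTop]
  intro ε hε
  set δ := min (ε / 4) r with hδ
  have hδ0 : 0 < δ := lt_min (by linarith) hrpos
  have hδr : δ ≤ r := min_le_right _ _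
  have hδε : δ ≤ ε / 4 := min_le_left _ _
  obtain ⟨N1, hN1⟩ := houter (ε / 2) (by linarith)
  obtain ⟨N2, hN2⟩ := hdiff (volume (ball (0 : EuclideanSpace ℝ (Fin n)) δ))
    (measure_ball_pos _ _ hδ0)
  refine ⟨max N1 N2, fun i hi => ?_⟩
  have hi1 := hN1 i (le_of_max_le_left hi)
  have hi2 := hN2 i (le_of_max_le_right hi)
  rw [Real.dist_eq, sub_zero, abs_of_nonneg hausdorffDist_nonneg]
  refine lt_of_le_of_lt (hausdorffDist_le_of_mem_dist (r := ε / 2) (by linarith) ?_ ?_)
    (by linarith)
  · intro x hx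
    rcases le_or_gt ‖x‖ r with hxr | hxr
    · exact ⟨x, by rwa [mem_closedBall_zero_iff], by rw [dist_self]; linarith⟩
    · have hxpos : 0 < ‖x‖ := lt_trans hrpos hxr
      refine ⟨(r / ‖x‖) • x, ?_, ?_⟩
      · rw [mem_closedBall_zero_iff, norm_smul, Real.norm_of_nonneg (by positivity),
          div_mul_cancel₀ _ hxpos.ne']
      · have h1 := hi1 hx
        rw [mem_closedBall_zero_iff] at h1
        have h2 : x - (r / ‖x‖) • x = ((‖x‖ - r) / ‖x‖) • x := by
          rw [sub_div, div_self hxpos.ne', sub_smul, one_smul]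
        rw [dist_eq_norm, h2, norm_smul, Real.norm_of_nonneg (by
          apply div_nonneg <;> linarith), div_mul_cancel₀ _ hxpos.ne']
        linarith
  · intro x hx
    rw [mem_closedBall_zero_iff] at hx
    by_contra hcon
    push Not at hcon
    -- the small ball
    set x' := (1 - δ / r) • x with hx'
    have hq0 : 0 ≤ 1 - δ / r := by
      rw [sub_nonneg, div_le_one hrpos]; exact hδr
    have hsub1 : ball x' δ ⊆ closedBall 0 r \ iter u A i := by
      intro y hy
      rw [mem_ball, dist_eq_norm] at hy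
      have hy1 : ‖y‖ ≤ r := by
        have h1 : ‖y‖ ≤ ‖x'‖ + ‖y - x'‖ := by
          calc ‖y‖ = ‖x' + (y - x')‖ := by congr 1; abel
            _ ≤ _ := norm_add_le _ _
        have h2 : ‖x'‖ ≤ r - δ := by
          rw [hx', norm_smul, Real.norm_of_nonneg hq0]
          calc (1 - δ / r) * ‖x‖ ≤ (1 - δ / r) * r := by gcongr
            _ = r - δ := by field_simp
        linarith
      refine ⟨by rwa [mem_closedBall_zero_iff], fun hyK => ?_⟩
      have h3 := hcon y hyK
      have h4 : dist x y ≤ ‖x - x'‖ + ‖y - x'‖ := by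
        rw [dist_eq_norm]
        calc ‖x - y‖ = ‖(x - x') - (y - x')‖ := by congr 1; abel
          _ ≤ _ := norm_sub_le _ _
      have h5 : ‖x - x'‖ ≤ δ := by
        have : x - x' = (δ / r) • x := by
          rw [hx', sub_smul, one_smul]; abel
        rw [this, norm_smul, Real.norm_of_nonneg (by positivity)]
        calc δ / r * ‖x‖ ≤ δ / r * r := by gcongr
          _ = δ := by field_simp
      linarith
    have h6 := measure_mono (μ := volume) hsub1
    have h7 : volume (ball x' δ) = volume (ball (0 : EuclideanSpace ℝ (Fin n)) δ) := by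
      rw [Measure.addHaar_ball_center]
    rw [h7] at h6
    exact absurd (lt_of_le_of_lt h6 hi2) (lt_irrefl _)

end Pool.Agent.Results.MP_c699aa_gt.FullConvergence
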